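import Pool.Agent.Y174.SD.Stm

/-! Project SD, job SD-DENS: semi-invariance over a larger field. -/

set_option autoImplicit false

open MvPolynomial Pool.Agent.Y174.T Pool.Agent.Y174.SD

namespace Pool.Agent.Y301.SD

/-- `lsub` commutes with ring homomorphisms -/
theorem map_lsub {R S : Type*} [CommRing R] [CommRing S] (f : R →+* S) {n : ℕ}
    (A : Matrix (Fin n) (Fin n) R) (p : MvPolynomial (Fin n) R) :
    map f (lsub A p) = lsub (A.map f) (map f p) := by
  induction p using MvPolynomial.induction_on with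
  | C a => simp [lsub]
  | add p q hp hq => rw [map_add, map_add, hp, hq, map_add, map_add]
  | mul_X p i hp =>
    rw [map_mul, map_mul, hp, map_mul, map_mul, map_X]
    congr 1
    simp [lsub]

theorem map_fm {R S : Type*} [CommRing R] [CommRing S] (f : R →+* S) {n m : ℕ}
    (c : Fin n × Ex n m → R) (j : Fin n) : map f (fm c j) = fm (fun p => f (c p)) j := by
  unfold fm
  rw [map_sum]
  exact Finset.sum_congr rfl fun d _ => map_monomial _ _ _

/-- `trans` commutes with ring homomorphisms -/
theorem map_trans {R S : Type*} [CommRing R] [CommRing S] (f : R →+* S) {n m : ℕ}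
    (A : Matrix (Fin n) (Fin n) R) (c : Fin n × Ex n m → R) (p : Fin n × Ex n m) :
    f (trans A c p) = trans (A.map f) (fun p => f (c p)) p := by
  unfold Pool.Agent.Y174.SD.trans
  rw [← coeff_map, map_lsub, map_fm]

theorem aeval_trans {k : Type*} [Field k] {L M : Type*} [CommRing L] [Algebra k L] [CommRing M]
    [Algebra k M] (φ : L →ₐ[k] M) {n m : ℕ} (A : Matrix (Fin n) (Fin n) L)
    (c : Fin n × Ex n m → L) (Q : Cf k n m) :
    φ (aeval (trans A c) Q) = aeval (trans (A.map φ) (fun p => φ (c p))) Q := by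
  rw [MvPolynomial.comp_aeval_apply]
  congr 2
  funext p
  exact map_trans (φ : L →+* M) A c p

theorem semi_pt {k : Type*} [Field k] {n m w : ℕ} {Q : Cf k n m} (hQ : SemiInv Q w)
    (g : Matrix (Fin n) (Fin n) k) (hg : g.det ≠ 0) (c : Fin n × Ex n m → k) :
    aeval (trans g c) Q = g.det ^ w * aeval c Q := by
  have h1 := congrArg (aeval c) (hQ g hg)
  unfold act at h1
  rw [aeval_trans (aeval c), map_mul] at h1
  have h2 : (g.map (C : k →+* Cf k n m)).map (aeval c : Cf k n m →ₐ[k] k) = g := by
    ext i j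
    simp
  rw [h2] at h1
  simpa using h1

theorem t_DENS : S_DENS := by
  intro k K _ _ _ _ n m w Q hQ A c
  let P := MvPolynomial ((Fin n × Fin n) ⊕ (Fin n × Ex n m)) k
  let AA : Matrix (Fin n) (Fin n) P := Matrix.of fun i j => X (Sum.inl (i, j))
  let cc : Fin n × Ex n m → P := fun p => X (Sum.inr p)
  -- evaluations
  have hev : ∀ (L : Type) [CommRing L] [Algebra k L] (B : Matrix (Fin n) (Fin n) L)
      (d : Fin n × Ex n m → L), ∃ φ : P →ₐ[k] L, AA.map φ = B ∧ (∀ p, φ (cc p) = d p) := by
    intro L _ _ B d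
    refine ⟨aeval (Sum.elim (fun p => B p.1 p.2) d), ?_, ?_⟩
    · ext i j
      exact aeval_X _ _
    · intro p
      exact aeval_X _ _
  have hdet : AA.det ≠ 0 := by
    obtain ⟨φ, h1, -⟩ := hev k 1 (fun _ => 0)
    intro h0
    have h2 : φ AA.det = 1 := by
      rw [AlgHom.map_det]
      change (AA.map φ).det = 1
      rw [h1, Matrix.det_one]
    rw [h0, map_zero] at h2
    exact zero_ne_one h2
  have hE : (aeval (trans AA cc) Q - AA.det ^ w * aeval cc Q) * AA.det = 0 := by
    apply MvPolynomial.funext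
    intro v
    rw [map_zero]
    have e1 : ∀ x : P, eval v x = aeval v x := fun x => by rw [aeval_eq_eval]
    rw [e1, map_mul, map_sub, map_mul, map_pow, aeval_trans (aeval v), AlgHom.map_det,
      MvPolynomial.comp_aeval_apply]
    change (aeval (trans (AA.map (aeval v)) fun p => (aeval v) (cc p)) Q -
      (AA.map (aeval v)).det ^ w * (aeval fun p => (aeval v) (cc p)) Q) * (AA.map (aeval v)).det = 0
    by_cases h0 : (AA.map (aeval v : P →ₐ[k] k)).det = 0
    · rw [h0, mul_zero]
    · rw [semi_pt hQ _ h0, sub_self, zero_mul]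
  have hE' : aeval (trans AA cc) Q = AA.det ^ w * aeval cc Q := by
    rcases mul_eq_zero.1 hE with h | h
    · exact sub_eq_zero.1 h
    · exact absurd h hdet
  obtain ⟨φ, h1, h2⟩ := hev K A c
  have h3 := congrArg φ hE'
  rw [aeval_trans φ, map_mul, map_pow, AlgHom.map_det, MvPolynomial.comp_aeval_apply] at h3
  have h4 : (fun p => φ (cc p)) = c := funext h2
  have h5 : (φ.mapMatrix AA) = A := h1
  rw [h1, h4, h5] at h3
  exact h3

end Pool.Agent.Y301.SD
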